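import Pool.Agent.H770.GS.Final

set_option autoImplicit false

namespace Pool.Agent.Results.MP_3a0321_gt.AllDimensions

open MeasureTheory

/-- The standard Gaussian measure of a subset `A` of a finite dimensional Euclidean space `E`:
the integral over `A` of the density `(2π)^(-dim E / 2) e^(-|x|²/2)`. -/
noncomputable def gaussian {E : Type*} [NormedAddCommGroup E] [InnerProductSpace ℝ E]
    [FiniteDimensional ℝ E] [MeasurableSpace E] [BorelSpace E] (A : Set E) : ℝ :=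
  ∫ x in A, (2 * Real.pi) ^ (-(Module.finrank ℝ E : ℝ) / 2) * Real.exp (-‖x‖ ^ 2 / 2)

/-- The cube `[-r, r]^n`. -/
def cube (n : ℕ) (r : ℝ) : Set (EuclideanSpace ℝ (Fin n)) := {x | ∀ i, |x i| ≤ r}

/-- The Gaussian measure `γ_{n-1}([-r, r]^n ∩ a^⊥)`, computed inside the hyperplane `a^⊥`. -/
noncomputable def sectionMeasure (n : ℕ) (r : ℝ) (a : EuclideanSpace ℝ (Fin n)) : ℝ :=
  gaussian {x : ((ℝ ∙ a)ᗮ : Submodule ℝ (EuclideanSpace ℝ (Fin n))) |
    (x : EuclideanSpace ℝ (Fin n)) ∈ cube n r}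

/-- The set of the values of `a ↦ γ_{n-1}([-r, r]^n ∩ a^⊥)` on the unit sphere. -/
def values (n : ℕ) (r : ℝ) : Set ℝ :=
  {g : ℝ | ∃ a : EuclideanSpace ℝ (Fin n), ‖a‖ = 1 ∧ sectionMeasure n r a = g}

/-- `M_n(r)`: the supremum of `a ↦ γ_{n-1}([-r, r]^n ∩ a^⊥)` over the unit vectors. -/
noncomputable def M (n : ℕ) (r : ℝ) : ℝ := sSup (values n r)

/-- The vector `(1/√2, 1/√2, 0, …, 0)` of `ℝⁿ`. -/
noncomputable def aStar (n : ℕ) : EuclideanSpace ℝ (Fin n) :=
  WithLp.toLp 2 fun i => if i.val < 2 then 1 / Real.sqrt 2 else 0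

/-- The vector `(1, …, 1)/√n` of `ℝⁿ`. -/
noncomputable def diagonal (n : ℕ) : EuclideanSpace ℝ (Fin n) :=
  WithLp.toLp 2 fun _ => 1 / Real.sqrt n

/-- The value `γ_1([-√2 r, √2 r]) γ_{n-2}([-r, r]^{n-2})` at `aStar n`. -/
noncomputable def starValue (n : ℕ) (r : ℝ) : ℝ :=
  gaussian (cube 1 (Real.sqrt 2 * r)) * gaussian (cube (n - 2) r)

/-- The value at `diagonal n`:
`(2π)^(-(n+1)/2) ∫_ℝ (∫_{-r}^{r} cos (s x/√n) e^(-x²/2) dx)ⁿ ds`. -/
noncomputable def diagonalValue (n : ℕ) (r : ℝ) : ℝ :=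
  (2 * Real.pi) ^ (-((n : ℝ) + 1) / 2) * ∫ s : ℝ,
    (∫ x in (-(r))..(r), Real.cos (s * x / Real.sqrt n) * Real.exp (-x ^ 2 / 2)) ^ n

/-- For every `0.6265 ≤ r ≤ 1.5` and every dimension `n ≥ 3`, the supremum `M_n(r)` is
attained, and it is the larger one of the values at `(1, 1, 0, …, 0)/√2` and at
`(1, …, 1)/√n`, for which formulas are given. A unit vector `a` attains `M_n(r)` if and only if
either two of its coordinates have absolute value `1/√2` and the value at `(1, 1, 0, …, 0)/√2` is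
the larger one, or all its coordinates have absolute value `1/√n` and the value at `(1, …, 1)/√n`
is the larger one (both cases occur if the two values agree). Moreover, if the value at
`(1, …, 1)/√m` is larger than the one at `(1, 1, 0, …, 0)/√2` in dimension `m ≥ 3`, then the
same holds in all dimensions `n ≥ m`. -/
theorem result (r : ℝ) (hr1 : 0.6265 ≤ r) (hr2 : r ≤ 1.5) :
    (∀ n : ℕ, 3 ≤ n →
      IsGreatest (values n r) (M n r) ∧
      M n r = max (starValue n r) (diagonalValue n r) ∧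
      ‖aStar n‖ = 1 ∧ sectionMeasure n r (aStar n) = starValue n r ∧
      ‖diagonal n‖ = 1 ∧ sectionMeasure n r (diagonal n) = diagonalValue n r ∧
      ∀ a : EuclideanSpace ℝ (Fin n), ‖a‖ = 1 →
        (sectionMeasure n r a = M n r ↔
          (diagonalValue n r ≤ starValue n r ∧
            ∃ i j, i ≠ j ∧ |a i| = 1 / Real.sqrt 2 ∧ |a j| = 1 / Real.sqrt 2) ∨
          (starValue n r ≤ diagonalValue n r ∧ ∀ i, |a i| = 1 / Real.sqrt n))) ∧
    ∀ m n : ℕ, 3 ≤ m → m ≤ n → starValue m r < diagonalValue m r →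
      starValue n r < diagonalValue n r := by
  have hr : 0 < r := by linarith
  have hr6 : 0.6265 ≤ r := hr1
  have hr5 : r ≤ 3 / 2 := by linarith
  have hM : H770.GS.Main r := H770.GS.main_r hr6 hr5
  have hpi : (0:ℝ) < 2 * Real.pi := by positivity
  have hc : ∀ k : ℕ, (0:ℝ) < (2 * Real.pi) ^ (-((k + 1 : ℕ) : ℝ) / 2) := fun k => by positivity
  have hstar : ∀ k : ℕ, 1 ≤ k → aStar (k + 2) = H770.GS.dirAB k (1 / Real.sqrt 2) 0 := by
    intro k _
    ext i
    unfold aStar H770.GS.dirAB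
    rw [H770.GS.vec_apply]
    obtain ⟨i, hi⟩ := i
    match i, hi with
    | 0, _ => simp
    | 1, _ => simp
    | j + 2, hj =>
      have hj' : j < k := by omega
      simp [hj']
  have hdiag : ∀ k : ℕ, diagonal (k + 2) =
      H770.GS.dirAB k (1 / Real.sqrt (k + 2)) (1 / Real.sqrt (k + 2)) := by
    intro k
    ext i
    rw [H597.TH.dirAB_diag]
    unfold diagonal
    simp
  have hsec : ∀ k : ℕ, ∀ a : EuclideanSpace ℝ (Fin (k + 2)), ‖a‖ = 1 →
      sectionMeasure (k + 2) r a =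
        (2 * Real.pi) ^ (-((k + 1 : ℕ) : ℝ) / 2) * Helper82.GC.Asl r a 0 := by
    intro k a ha
    exact H770.GS.sec_eq_Asl (r) a ha
  have hsv : ∀ k : ℕ, 1 ≤ k → starValue (k + 2) r =
      (2 * Real.pi) ^ (-((k + 1 : ℕ) : ℝ) / 2) * H770.GS.FF r k 0 := by
    intro k hk
    have e1 : gaussian (cube 1 (Real.sqrt 2 * r)) =
        (Helper82.GC.Zr (Real.sqrt 2 * r) / Real.sqrt (2 * Real.pi)) ^ 1 :=
      Helper82.GC.gam_cube 1 (mul_pos (Real.sqrt_pos.2 (zero_lt_two' ℝ)) hr)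
    have e2 : gaussian (cube (k + 2 - 2) r) =
        (Helper82.GC.Zr r / Real.sqrt (2 * Real.pi)) ^ k :=
      Helper82.GC.gam_cube k hr
    unfold starValue
    rw [e1, e2, H249.TH2.th2 r k hr, pow_one, div_pow,
      div_mul_div_comm]
    have e3 : (2 * Real.pi) ^ (-((k + 1 : ℕ) : ℝ) / 2) =
        1 / (Real.sqrt (2 * Real.pi) * Real.sqrt (2 * Real.pi) ^ k) := by
      rw [mul_comm (Real.sqrt (2 * Real.pi)), ← pow_succ, Real.sqrt_eq_rpow, ← Real.rpow_natCast,
        ← Real.rpow_mul hpi.le, one_div, ← Real.rpow_neg hpi.le]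
      congr 1
      push_cast
      ring
    rw [e3]
    ring
  have hdv : ∀ k : ℕ, 1 ≤ k → diagonalValue (k + 2) r =
      (2 * Real.pi) ^ (-((k + 1 : ℕ) : ℝ) / 2) * H770.GS.FF r k k := by
    intro k hk
    rw [← H770.GS.Asl_Dn hr hk, H597.TH.TH1 r k hr]
    unfold diagonalValue
    push_cast
    rfl
  constructor
  · intro n hn
    obtain ⟨k, rfl⟩ : ∃ k, n = k + 2 := ⟨n - 2, by omega⟩
    have hk : 1 ≤ k := by omega
    have n1 : ‖aStar (k + 2)‖ = 1 := by
      rw [hstar k hk]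
      exact H770.GS.dirAB_two_norm hk
    have n2 : ‖diagonal (k + 2)‖ = 1 := by
      rw [hdiag k]
      exact H770.GS.dirAB_diag_norm k
    have s1 : sectionMeasure (k + 2) r (aStar (k + 2)) = starValue (k + 2) r := by
      rw [hsec k _ n1, hstar k hk, H770.GS.Asl_D2 hr hk, hsv k hk]
    have s2 : sectionMeasure (k + 2) r (diagonal (k + 2)) = diagonalValue (k + 2) r := by
      rw [hsec k _ n2, hdiag k, H770.GS.Asl_Dn hr hk, hdv k hk]
    have hgreat : IsGreatest (values (k + 2) r)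
        (max (starValue (k + 2) r) (diagonalValue (k + 2) r)) := by
      constructor
      · rcases max_choice (starValue (k + 2) r) (diagonalValue (k + 2) r) with h | h
        · rw [h]
          exact ⟨_, n1, s1⟩
        · rw [h]
          exact ⟨_, n2, s2⟩
      · rintro g ⟨c, hc1, rfl⟩
        rw [hsec k c hc1, hsv k hk, hdv k hk, ← mul_max_of_nonneg _ _ (hc k).le,
          ← H770.GS.Asl_D2 hr hk, ← H770.GS.Asl_Dn hr hk]
        exact mul_le_mul_of_nonneg_left (hM k hk c hc1) (hc k).le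
    have hMe : M (k + 2) r = max (starValue (k + 2) r) (diagonalValue (k + 2) r) :=
      hgreat.csSup_eq
    rw [hMe]
    refine ⟨hgreat, rfl, n1, s1, n2, s2, fun a ha => ?_⟩
    have hu := H770.GS.uniq_main hr6 hr5 hk (fun θ hθ => by
      rw [← H770.GS.Asl_D2 hr hk, ← H770.GS.Asl_Dn hr hk]
      exact hM k hk θ hθ) a ha
    have hcast : ((k + 2 : ℕ) : ℝ) = (k : ℝ) + 2 := by push_cast; ring
    rw [hsec k a ha, hsv k hk, hdv k hk, ← mul_max_of_nonneg _ _ (hc k).le, hcast]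
    constructor
    · intro h
      rcases hu.1 (mul_left_cancel₀ (hc k).ne' h) with h1 | h1
      · exact Or.inl ⟨mul_le_mul_of_nonneg_left h1.1 (hc k).le, h1.2⟩
      · exact Or.inr ⟨mul_le_mul_of_nonneg_left h1.1 (hc k).le, h1.2⟩
    · intro h
      rw [hu.2 (h.imp (fun h1 => ⟨le_of_mul_le_mul_left h1.1 (hc k), h1.2⟩)
        (fun h1 => ⟨le_of_mul_le_mul_left h1.1 (hc k), h1.2⟩))]
  · intro m n hm hmn h
    obtain ⟨k, rfl⟩ : ∃ k, m = k + 2 := ⟨m - 2, by omega⟩
    obtain ⟨l, rfl⟩ : ∃ l, n = l + 2 := ⟨n - 2, by omega⟩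
    have hk : 1 ≤ k := by omega
    have hkl : k ≤ l := by omega
    rw [hsv k hk, hdv k hk] at h
    rw [hsv l (by omega), hdv l (by omega)]
    exact mul_lt_mul_of_pos_left
      (H770.GS.order_le hr hM hk hkl (lt_of_mul_lt_mul_left h (hc k).le)) (hc l)

end Pool.Agent.Results.MP_3a0321_gt.AllDimensions
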