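import Pool.Agent.H770.GS.Res3

set_option autoImplicit false

namespace Pool.Agent.Results.MP_3a0321_gt.DimensionThree

open MeasureTheory

/-- The standard Gaussian measure of a subset `A` of a finite dimensional Euclidean space `E`:
the integral over `A` of the density `(2π)^(-dim E / 2) e^(-|x|²/2)`. -/
noncomputable def gaussian {E : Type*} [NormedAddCommGroup E] [InnerProductSpace ℝ E]
    [FiniteDimensional ℝ E] [MeasurableSpace E] [BorelSpace E] (A : Set E) : ℝ :=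
  ∫ x in A, (2 * Real.pi) ^ (-(Module.finrank ℝ E : ℝ) / 2) * Real.exp (-‖x‖ ^ 2 / 2)

/-- The cube `[-r, r]^k`. -/
def cube (k : ℕ) (r : ℝ) : Set (EuclideanSpace ℝ (Fin k)) := {x | ∀ i, |x i| ≤ r}

/-- The Gaussian measure `γ_{n-1}([-r, r]^n ∩ θ^⊥)`, computed inside the hyperplane `θ^⊥`. -/
noncomputable def sectionMeasure (n : ℕ) (r : ℝ) (θ : EuclideanSpace ℝ (Fin n)) : ℝ :=
  gaussian {x : ((ℝ ∙ θ)ᗮ : Submodule ℝ (EuclideanSpace ℝ (Fin n))) |
    (x : EuclideanSpace ℝ (Fin n)) ∈ cube n r}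

/-- The set of the values of `θ ↦ γ_{n-1}([-r, r]^n ∩ θ^⊥)` on the unit sphere. -/
def values (n : ℕ) (r : ℝ) : Set ℝ :=
  {g : ℝ | ∃ θ : EuclideanSpace ℝ (Fin n), ‖θ‖ = 1 ∧ sectionMeasure n r θ = g}

/-- `M_n(r)`: the supremum of `γ_{n-1}([-r, r]^n ∩ θ^⊥)` over the unit vectors `θ`. -/
noncomputable def M (n : ℕ) (r : ℝ) : ℝ := sSup (values n r)

/-- `γ_1([-√2 r, √2 r]) γ_1([-r, r])`, the Gaussian measure of a rectangle. -/
noncomputable def rectangle (r : ℝ) : ℝ :=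
  gaussian (cube 1 (Real.sqrt 2 * r)) * gaussian (cube 1 r)

/-- The Gaussian measure of the regular hexagon with inradius `√(3/2) r`, in polar form:
`(2π)⁻¹ 6√3 ∫_0^r e^(-3s²/4) ∫_{-s/2}^{s/2} e^(-p²) dp ds`. -/
noncomputable def hexagon (r : ℝ) : ℝ :=
  (2 * Real.pi)⁻¹ * (6 * Real.sqrt 3 * ∫ s in (0 : ℝ)..r,
    Real.exp (-(3 * s ^ 2 / 4)) * ∫ p in (-(s / 2))..(s / 2), Real.exp (-p ^ 2))

/-- The full answer to Q2 in dimension three, for every `r > 0`.
There is a threshold `r₃ > 1` such that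
(1) for every `r > 0`, `M_3(r)` is the greatest value of a section;
(2) for `0 < r ≤ r₃`, `M_3(r) = γ_1([-√2 r, √2 r]) γ_1([-r, r])`;
(3) for `r ≥ r₃`, `M_3(r)` is the Gaussian measure of a regular hexagon, an explicit integral;
(4) the two expressions agree only at `r₃`: the first is larger below and smaller above;
(5) a unit vector `θ` attains `M_3(r)` iff either `r ≤ r₃` and two coordinates of `θ` have
absolute value `1/√2`, or `r ≥ r₃` and all three coordinates have absolute value `1/√3`. -/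
theorem result : ∃ r₃ : ℝ, 1 < r₃ ∧
    (∀ r, 0 < r → IsGreatest (values 3 r) (M 3 r)) ∧
    (∀ r, 0 < r → r ≤ r₃ → M 3 r = rectangle r) ∧
    (∀ r, r₃ ≤ r → M 3 r = hexagon r) ∧
    (∀ r, 0 < r → r < r₃ → hexagon r < rectangle r) ∧
    (∀ r, r₃ < r → rectangle r < hexagon r) ∧
    (∀ r, 0 < r → ∀ θ : EuclideanSpace ℝ (Fin 3), ‖θ‖ = 1 →
      (sectionMeasure 3 r θ = M 3 r ↔
        (r ≤ r₃ ∧ ∃ i j, i ≠ j ∧ |θ i| = 1 / Real.sqrt 2 ∧ |θ j| = 1 / Real.sqrt 2) ∨
        (r₃ ≤ r ∧ ∀ i, |θ i| = 1 / Real.sqrt 3))) := by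
  obtain ⟨r3, h1, hlt, hgt, heq, hmain⟩ := H770.GS.main3
  have hpi : (0 : ℝ) < (2 * Real.pi)⁻¹ := by have := Real.pi_pos; positivity
  have hsec : ∀ (r : ℝ) (a : EuclideanSpace ℝ (Fin 3)), ‖a‖ = 1 →
      sectionMeasure 3 r a = (2 * Real.pi)⁻¹ * Helper82.GC.Asl r a 0 :=
    fun r a ha => H770.GS.sec3_eq r a ha
  have hrect : ∀ r, 0 < r → rectangle r = (2 * Real.pi)⁻¹ * H770.GS.V2 r := by
    intro r hr
    have e1 : gaussian (cube 1 (Real.sqrt 2 * r)) =
        (Helper82.GC.Zr (Real.sqrt 2 * r) / Real.sqrt (2 * Real.pi)) ^ 1 :=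
      Helper82.GC.gam_cube 1 (by positivity)
    have e2 : gaussian (cube 1 r) = (Helper82.GC.Zr r / Real.sqrt (2 * Real.pi)) ^ 1 :=
      Helper82.GC.gam_cube 1 (by positivity)
    unfold rectangle
    rw [e1, e2, H770.GS.V2_eq hr, pow_one, pow_one, div_mul_div_comm,
      Real.mul_self_sqrt (by positivity)]
    have e3 : (∫ u in (-(Real.sqrt 2 * r))..(Real.sqrt 2 * r), H770.GS.W u) =
        Helper82.GC.Zr (Real.sqrt 2 * r) := rfl
    rw [e3]
    ring
  have hhex : ∀ r, 0 < r → hexagon r = (2 * Real.pi)⁻¹ * H770.GS.V3 r := by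
    intro r hr
    rw [H770.GS.V3_eq hr]
    rfl
  have hgreat : ∀ r, 0 < r → IsGreatest (values 3 r)
      ((2 * Real.pi)⁻¹ * max (H770.GS.V2 r) (H770.GS.V3 r)) := by
    intro r hr
    constructor
    · rcases max_choice (H770.GS.V2 r) (H770.GS.V3 r) with h | h
      · rw [h]
        exact ⟨H770.GS.dirTwo, H770.GS.fam_norm _, hsec _ _ (H770.GS.fam_norm _)⟩
      · rw [h]
        exact ⟨H770.GS.dirThree, H770.GS.fam_norm _, hsec _ _ (H770.GS.fam_norm _)⟩
    · rintro g ⟨a, ha, rfl⟩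
      rw [hsec r a ha]
      exact mul_le_mul_of_nonneg_left (hmain r hr a ha).1 hpi.le
  have hM : ∀ r, 0 < r → M 3 r = (2 * Real.pi)⁻¹ * max (H770.GS.V2 r) (H770.GS.V3 r) :=
    fun r hr => (hgreat r hr).csSup_eq
  refine ⟨r3, h1, ?_, ?_, ?_, ?_, ?_, ?_⟩
  · intro r hr
    rw [hM r hr]
    exact hgreat r hr
  · intro r hr hrr
    rw [hM r hr, hrect r hr, max_eq_left]
    rcases eq_or_lt_of_le hrr with h | h
    · rw [h, heq]
    · exact (hlt r hr h).le
  · intro r hrr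
    have hr : 0 < r := by linarith
    rw [hM r hr, hhex r hr, max_eq_right]
    rcases eq_or_lt_of_le hrr with h | h
    · rw [← h, heq]
    · exact (hgt r h).le
  · intro r hr hrr
    rw [hrect r hr, hhex r hr]
    exact mul_lt_mul_of_pos_left (hlt r hr hrr) hpi
  · intro r hrr
    have hr : 0 < r := by linarith
    rw [hrect r hr, hhex r hr]
    exact mul_lt_mul_of_pos_left (hgt r hrr) hpi
  · intro r hr a ha
    rw [hM r hr, hsec r a ha]
    have h2 := (hmain r hr a ha).2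
    rw [← h2]
    constructor
    · intro h
      exact mul_left_cancel₀ hpi.ne' h
    · intro h
      rw [h]

end Pool.Agent.Results.MP_3a0321_gt.DimensionThree
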